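import Mathlib

namespace Pool.Agent.LibAlt

variable {A : Type*} [NonUnitalNonAssocRing A]

/-- The alternative laws `(a,a,b) = 0 = (b,a,a)`. -/
def IsAlt (A : Type*) [NonUnitalNonAssocRing A] : Prop :=
  ∀ a b : A, associator a a b = 0 ∧ associator b a a = 0

/-- The Jordan product `ab + ba`. -/
def J (a b : A) : A := a * b + b * a

theorem as_add1 (a b c d : A) :
    associator (a + b) c d = associator a c d + associator b c d := by
  simp only [associator, add_mul]; abel

theorem as_add2 (a b c d : A) :
    associator c (a + b) d = associator c a d + associator c b d := by
  simp only [associator, add_mul, mul_add]; abel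

theorem as_add3 (a b c d : A) :
    associator c d (a + b) = associator c d a + associator c d b := by
  simp only [associator, mul_add]; abel

theorem J_add (a b c : A) : J a (b + c) = J a b + J a c := by
  simp only [J, mul_add, add_mul]; abel

theorem J_neg (a b : A) : J a (-b) = - J a b := by
  simp only [J, mul_neg, neg_mul]; abel

section
variable (h : IsAlt A)
include h

theorem sk12 (a b c : A) : associator a b c = - associator b a c := by
  have h1 := (h (a + b) c).1
  rw [as_add1, as_add2, as_add2, (h a c).1, (h b c).1] at h1
  rw [zero_add, add_zero] at h1
  exact eq_neg_of_add_eq_zero_left h1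

theorem sk23 (a b c : A) : associator a b c = - associator a c b := by
  have h1 := (h (b + c) a).2
  rw [as_add2, as_add3, as_add3, (h b a).2, (h c a).2] at h1
  rw [zero_add, add_zero] at h1
  exact eq_neg_of_add_eq_zero_left h1

theorem cyc (a b c : A) : associator a b c = associator b c a := by
  rw [sk12 h a b c, sk23 h b a c, neg_neg]

theorem sk13 (a b c : A) : associator a b c = - associator c b a := by
  rw [cyc h a b c, sk12 h b c a]

theorem sq_as (a b c : A) :
    associator (a * a) b c = a * associator a b c + associator a b c * a := by
  have t1 := associator_cocycle a a c b
  have t2 := associator_cocycle c b a a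
  have t3 := associator_cocycle b a a c
  rw [(h a (c * b)).1, (h a c).1, sk23 h a c b, sk23 h (a * a) c b, sk12 h a (a * c) b] at t1
  rw [(h a b).2, (h a (c * b)).2, cyc h c (b * a) a, sk13 h c b (a * a), sk13 h c b a] at t2
  rw [(h a b).2, (h a c).1, sk12 h b (a * a) c, sk13 h b a (a * c)] at t3
  simp only [mul_neg, neg_mul, mul_zero, zero_mul] at t1 t2 t3
  linear_combination (norm := abel1) t1 + t2 + t3

/-- `(a∘b, c, d) = a∘(b,c,d) + b∘(a,c,d)`. -/
theorem der1 (a b c d : A) :
    associator (J a b) c d = J a (associator b c d) + J b (associator a c d) := by
  have t1 := sq_as h (a + b) c d
  have t2 := sq_as h a c d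
  have t3 := sq_as h b c d
  simp only [mul_add, add_mul, as_add1] at t1
  simp only [J, as_add1]
  linear_combination (norm := abel1) t1 - t2 - t3

theorem der2 (a b c d : A) :
    associator c (J a b) d = J a (associator c b d) + J b (associator c a d) := by
  rw [sk12 h c (J a b) d, der1 h, sk12 h c b d, sk12 h c a d, J_neg, J_neg]; abel

theorem der3 (a b c d : A) :
    associator c d (J a b) = J a (associator c d b) + J b (associator c d a) := by
  rw [sk23 h c d (J a b), der2 h, sk23 h c d b, sk23 h c d a, J_neg, J_neg]; abel

theorem ord123 (a b c d e g : A) :
    associator (J a b) (J c d) (J e g) =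
      J a (J c (J e (associator b d g))) +
      J a (J c (J g (associator b d e))) +
      J a (J d (J e (associator b c g))) +
      J a (J d (J g (associator b c e))) +
      J b (J c (J e (associator a d g))) +
      J b (J c (J g (associator a d e))) +
      J b (J d (J e (associator a c g))) +
      J b (J d (J g (associator a c e))) := by
  simp only [der1 h]
  simp only [der2 h]
  simp only [der3 h, J_add]
  abel

theorem ord132 (a b c d e g : A) :
    associator (J a b) (J c d) (J e g) =
      J a (J e (J c (associator b d g))) +
      J a (J g (J c (associator b d e))) +
      J a (J e (J d (associator b c g))) +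
      J a (J g (J d (associator b c e))) +
      J b (J e (J c (associator a d g))) +
      J b (J g (J c (associator a d e))) +
      J b (J e (J d (associator a c g))) +
      J b (J g (J d (associator a c e))) := by
  simp only [der1 h]
  simp only [der3 h]
  simp only [der2 h, J_add]
  abel

theorem ord213 (a b c d e g : A) :
    associator (J a b) (J c d) (J e g) =
      J c (J a (J e (associator b d g))) +
      J c (J a (J g (associator b d e))) +
      J d (J a (J e (associator b c g))) +
      J d (J a (J g (associator b c e))) +
      J c (J b (J e (associator a d g))) +
      J c (J b (J g (associator a d e))) +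
      J d (J b (J e (associator a c g))) +
      J d (J b (J g (associator a c e))) := by
  simp only [der2 h]
  simp only [der1 h]
  simp only [der3 h, J_add]
  abel

theorem ord231 (a b c d e g : A) :
    associator (J a b) (J c d) (J e g) =
      J c (J e (J a (associator b d g))) +
      J c (J g (J a (associator b d e))) +
      J d (J e (J a (associator b c g))) +
      J d (J g (J a (associator b c e))) +
      J c (J e (J b (associator a d g))) +
      J c (J g (J b (associator a d e))) +
      J d (J e (J b (associator a c g))) +
      J d (J g (J b (associator a c e))) := by
  simp only [der2 h]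
  simp only [der3 h]
  simp only [der1 h, J_add]
  abel

theorem ord312 (a b c d e g : A) :
    associator (J a b) (J c d) (J e g) =
      J e (J a (J c (associator b d g))) +
      J g (J a (J c (associator b d e))) +
      J e (J a (J d (associator b c g))) +
      J g (J a (J d (associator b c e))) +
      J e (J b (J c (associator a d g))) +
      J g (J b (J c (associator a d e))) +
      J e (J b (J d (associator a c g))) +
      J g (J b (J d (associator a c e))) := by
  simp only [der3 h]
  simp only [der1 h]
  simp only [der2 h, J_add]
  abel

theorem ord321 (a b c d e g : A) :
    associator (J a b) (J c d) (J e g) =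
      J e (J c (J a (associator b d g))) +
      J g (J c (J a (associator b d e))) +
      J e (J d (J a (associator b c g))) +
      J g (J d (J a (associator b c e))) +
      J e (J c (J b (associator a d g))) +
      J g (J c (J b (associator a d e))) +
      J e (J d (J b (associator a c g))) +
      J g (J d (J b (associator a c e))) := by
  simp only [der3 h]
  simp only [der2 h]
  simp only [der1 h, J_add]
  abel

end

end Pool.Agent.LibAlt
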