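import Pool.Agent.LibAlt.Witness

namespace Pool.Agent.LibAlt

section eval

variable {R : Type*} [CommRing R]

theorem smul_e_mul (s t : R) (i j : ℕ) :
    (s • (e i : W R)) * (t • e j) = (s * t * (C i j : R)) • e (i ||| j) := by
  rw [smul_mul_smul_comm, e_mul_e, smul_smul]

/-- Integer value of the evaluation of one summand of `tor` on basis vectors. -/
def tval (a b c d k g : ℕ) : ℤ :=
  ((C a b : ℤ) + C b a) * ((C c d : ℤ) + C d c) * ((C k g : ℤ) + C g k) *
    ((C (a ||| b) (c ||| d) : ℤ) * C ((a ||| b) ||| (c ||| d)) (k ||| g) -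
      (C (c ||| d) (k ||| g) : ℤ) * C (a ||| b) ((c ||| d) ||| (k ||| g)))

theorem J_e (i j : ℕ) : J (e i : W R) (e j) = (((C i j : ℤ) + C j i : ℤ) : R) • e (i ||| j) := by
  rw [J, e_mul_e, e_mul_e, Nat.or_comm j i, ← add_smul]
  push_cast
  rfl

theorem phi_e (a b c d k g : ℕ) :
    associator (J (e a : W R) (e b)) (J (e c) (e d)) (J (e k) (e g)) =
      ((tval a b c d k g : ℤ) : R) • e (((a ||| b) ||| (c ||| d)) ||| (k ||| g)) := by
  rw [J_e, J_e, J_e, associator, smul_e_mul, smul_e_mul, smul_e_mul, smul_e_mul,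
    ← Nat.or_assoc (a ||| b) (c ||| d) (k ||| g), ← sub_smul]
  congr 1
  unfold tval
  push_cast
  ring

theorem tor_e : tor (e 1 : W R) (e 2) (e 4) (e 8) (e 16) (e 32) = ((128 : ℤ) : R) • e 63 := by
  have h1 : tval 1 4 2 16 8 32 = -128 := by decide +kernel
  have h2 : tval 1 4 2 32 8 16 = -256 := by decide +kernel
  have h3 : tval 1 8 2 16 4 32 = -64 := by decide +kernel
  have h4 : tval 1 8 2 32 4 16 = -128 := by decide +kernel
  have h5 : tval 2 4 1 16 8 32 = -64 := by decide +kernel
  have h6 : tval 2 4 1 32 8 16 = -128 := by decide +kernel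
  have h7 : tval 2 8 1 16 4 32 = -128 := by decide +kernel
  have h8 : tval 2 8 1 32 4 16 = -256 := by decide +kernel
  unfold tor
  rw [phi_e, phi_e, phi_e, phi_e, phi_e, phi_e, phi_e, phi_e, h1, h2, h3, h4, h5, h6, h7, h8]
  have n1 : ((1 ||| 4) ||| (2 ||| 16)) ||| (8 ||| 32) = 63 := by decide
  have n2 : ((1 ||| 4) ||| (2 ||| 32)) ||| (8 ||| 16) = 63 := by decide
  have n3 : ((1 ||| 8) ||| (2 ||| 16)) ||| (4 ||| 32) = 63 := by decide
  have n4 : ((1 ||| 8) ||| (2 ||| 32)) ||| (4 ||| 16) = 63 := by decide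
  have n5 : ((2 ||| 4) ||| (1 ||| 16)) ||| (8 ||| 32) = 63 := by decide
  have n6 : ((2 ||| 4) ||| (1 ||| 32)) ||| (8 ||| 16) = 63 := by decide
  have n7 : ((2 ||| 8) ||| (1 ||| 16)) ||| (4 ||| 32) = 63 := by decide
  have n8 : ((2 ||| 8) ||| (1 ||| 32)) ||| (4 ||| 16) = 63 := by decide
  rw [n1, n2, n3, n4, n5, n6, n7, n8]
  rw [← sub_smul, ← sub_smul, ← add_smul, ← sub_smul, ← add_smul, ← add_smul, ← sub_smul]
  refine congrArg (fun z : R => z • (e 63 : W R)) ?_
  push_cast
  ring

theorem e_ne {i : ℕ} {r : R} (hr : r ≠ 0) : r • (e i : W R) ≠ 0 := by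
  intro h
  have h1 : (r • (Finsupp.single i 1 : ℕ →₀ R)) = 0 := h
  have h2 := DFunLike.congr_fun h1 i
  rw [Finsupp.smul_apply, Finsupp.single_eq_same, smul_eq_mul, mul_one] at h2
  exact hr h2

end eval

section ideal

universe u v

variable {Φ : Type u} [CommRing Φ] {F : Type v} [NonUnitalNonAssocRing F] [Module Φ F]

/-- two-sided ideal conditions together with containing all alternators -/
def IsAltIdeal (I : Submodule Φ F) : Prop :=
  (∀ f g : F, associator f f g ∈ I ∧ associator g f f ∈ I) ∧ ∀ a ∈ I, ∀ b, a * b ∈ I ∧ b * a ∈ I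

/-- the ring congruence attached to an ideal -/
def con (I : Submodule Φ F) (hI : IsAltIdeal I) : RingCon F where
  r a b := a - b ∈ I
  iseqv :=
    { refl := fun a => by rw [sub_self]; exact I.zero_mem
      symm := fun {a b} h => by rw [← neg_sub]; exact I.neg_mem h
      trans := fun {a b c} h1 h2 => by
        have := I.add_mem h1 h2
        rwa [sub_add_sub_cancel] at this }
  mul' := by
    intro a b c d h1 h2
    have e1 : a * c - b * d = (a - b) * c + b * (c - d) := by
      rw [sub_mul, mul_sub]; abel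
    change a * c - b * d ∈ I
    rw [e1]
    exact I.add_mem (hI.2 _ h1 c).1 (hI.2 _ h2 b).2
  add' := by
    intro a b c d h1 h2
    have e1 : (a + c) - (b + d) = (a - b) + (c - d) := by abel
    change (a + c) - (b + d) ∈ I
    rw [e1]
    exact I.add_mem h1 h2

theorem con_iff (I : Submodule Φ F) (hI : IsAltIdeal I) (a : F) :
    ((a : F) : (con I hI).Quotient) = 0 ↔ a ∈ I := by
  rw [← RingCon.coe_zero, RingCon.eq]
  change a - 0 ∈ I ↔ a ∈ I
  rw [sub_zero]

theorem coe_associator (I : Submodule Φ F) (hI : IsAltIdeal I) (a b c : F) :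
    ((associator a b c : F) : (con I hI).Quotient) = associator (a : (con I hI).Quotient) b c := by
  rw [associator, associator, RingCon.coe_sub, RingCon.coe_mul, RingCon.coe_mul, RingCon.coe_mul,
    RingCon.coe_mul]

theorem con_isAlt (I : Submodule Φ F) (hI : IsAltIdeal I) : IsAlt (con I hI).Quotient := by
  intro a b
  induction a using Quotient.inductionOn' with
  | h a =>
    induction b using Quotient.inductionOn' with
    | h b =>
      refine ⟨?_, ?_⟩
      · have := (con_iff I hI _).2 (hI.1 a b).1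
        rw [coe_associator] at this
        exact this
      · have := (con_iff I hI _).2 (hI.1 a b).2
        rw [coe_associator] at this
        exact this

theorem coe_J (I : Submodule Φ F) (hI : IsAltIdeal I) (a b : F) :
    ((J a b : F) : (con I hI).Quotient) = J (a : (con I hI).Quotient) b := by
  rw [J, J, RingCon.coe_add, RingCon.coe_mul, RingCon.coe_mul]

theorem coe_tor (I : Submodule Φ F) (hI : IsAltIdeal I) (a b c d k g : F) :
    ((tor a b c d k g : F) : (con I hI).Quotient) = tor (a : (con I hI).Quotient) b c d k g := by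
  unfold tor
  simp only [RingCon.coe_add, RingCon.coe_sub, coe_associator, coe_J]

theorem six_tor_mem (I : Submodule Φ F) (hI : IsAltIdeal I) (a b c d k g : F) :
    (6 : ℤ) • tor a b c d k g ∈ I := by
  rw [← con_iff I hI, RingCon.coe_zsmul, coe_tor]
  exact six_tor (con_isAlt I hI) _ _ _ _ _ _

end ideal

section hom

theorem map_tor {A B G : Type*} [NonUnitalNonAssocRing A] [NonUnitalNonAssocRing B]
    [FunLike G A B] [NonUnitalRingHomClass G A B] (φ : G) (a b c d k g : A) :
    φ (tor a b c d k g) = tor (φ a) (φ b) (φ c) (φ d) (φ k) (φ g) := by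
  unfold tor associator J
  simp only [map_add, map_sub, map_mul]

end hom

end Pool.Agent.LibAlt
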