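import Pool.Agent.LibAlt.Torsion

namespace Pool.Agent.LibAlt

/-- Table of structure constants modulo 3, in base 3. -/
def tbl : ℕ :=
  6597400301674549139167821080416083683699750062352014126717049829280277952069097364544196679032823094241503478157891024962004573127150643685814976114247373274995960559184271958045428529094861245129222160294004559735252247426622641916990167179804774124955539276844915479936236145508275450766155160513849062929448909007140778035964887530943635579163065568269072042805081631077700249528159166292111625762062777559680064421914740814701332340674143009354098563648998735722344328473447293723562897904623601039563847653318307228954456926950896130835546131511850048149976235808809506135794010047697138011936486643427466985795966374130419664234772010145676308279168402040683289717509760921848882435215506679314817810696615677408303948380361694200099628963170146908239638042011493836952772297574186604056381668784625855200213220305613243695499211821509151847423242228461656338905113285841590372913194163488514012836099323369548242990078070101209913602430594000148775047444334451351121660167335259037963742507292638091483206640525409935174384439763005874237894106145018741990602913499261198969281986115113698894885878439539569886930261468229247587582546713781087498232740625444653474111747807566554318188033112446716075106163219598534317914745935392607094545331344016169623090008859404764576448234357644494772897824478501953223177918775008306533878689667076977540698818325051076535065355560694366061440345870782262766660473863177662268925805427947191433661976206694160738256961024559510730806262665611392808866627252212867037397784840297878576260746461096666308976919999903159834554296547560131588452185318151307733224180612610339126242790483990888035940317008010978599684364825877450517079593973547441316455972548611644244899659341930264163913124425366405551058348943548994104115667628174313183556220689828371180264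

/-- Structure constants: `e_i e_j = C i j e_{i or j}`. -/
def C (i j : ℕ) : ℕ := if i < 64 then (if j < 64 then tbl / 3 ^ (64 * i + j) % 3 else 0) else 0

theorem C_comm_aux : ∀ i < 64, ∀ j < 64, C i j = C j i := by decide +kernel

theorem C_disj_aux : ∀ i < 64, ∀ j < 64, i &&& j ≠ 0 → C i j = 0 := by decide +kernel

theorem C_alt_aux : ∀ i < 64, ∀ j < 64, i &&& j = 0 → ∀ l < 64, (i ||| j) &&& l = 0 →
    (C i j * C (i ||| j) l + C j i * C (j ||| i) l) % 3 =
      (C j l * C i (j ||| l) + C i l * C j (i ||| l)) % 3 := by decide +kernel

end Pool.Agent.LibAlt
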