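import Pool.Agent.LibAlt.Basic

namespace Pool.Agent.LibAlt

variable {A : Type*} [NonUnitalNonAssocRing A]

/-- The alternating sum of `(x_i∘y_j, x_i'∘z_k, y_j'∘z_k')`. -/
def tor (x0 x1 y0 y1 z0 z1 : A) : A :=
  associator (J x0 y0) (J x1 z0) (J y1 z1)
  - associator (J x0 y0) (J x1 z1) (J y1 z0)
  - associator (J x0 y1) (J x1 z0) (J y0 z1)
  + associator (J x0 y1) (J x1 z1) (J y0 z0)
  - associator (J x1 y0) (J x0 z0) (J y1 z1)
  + associator (J x1 y0) (J x0 z1) (J y1 z0)
  + associator (J x1 y1) (J x0 z0) (J y0 z1)
  - associator (J x1 y1) (J x0 z1) (J y0 z0)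

theorem six_phi (h : IsAlt A) (a b c d e g : A) :
    (6 : ℤ) • associator (J a b) (J c d) (J e g) =
      J a (J c (J e (associator b d g))) +
      J a (J c (J g (associator b d e))) +
      J a (J d (J e (associator b c g))) +
      J a (J d (J g (associator b c e))) +
      J b (J c (J e (associator a d g))) +
      J b (J c (J g (associator a d e))) +
      J b (J d (J e (associator a c g))) +
      J b (J d (J g (associator a c e))) +
      J a (J e (J c (associator b d g))) +
      J a (J g (J c (associator b d e))) +
      J a (J e (J d (associator b c g))) +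
      J a (J g (J d (associator b c e))) +
      J b (J e (J c (associator a d g))) +
      J b (J g (J c (associator a d e))) +
      J b (J e (J d (associator a c g))) +
      J b (J g (J d (associator a c e))) +
      J c (J a (J e (associator b d g))) +
      J c (J a (J g (associator b d e))) +
      J d (J a (J e (associator b c g))) +
      J d (J a (J g (associator b c e))) +
      J c (J b (J e (associator a d g))) +
      J c (J b (J g (associator a d e))) +
      J d (J b (J e (associator a c g))) +
      J d (J b (J g (associator a c e))) +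
      J c (J e (J a (associator b d g))) +
      J c (J g (J a (associator b d e))) +
      J d (J e (J a (associator b c g))) +
      J d (J g (J a (associator b c e))) +
      J c (J e (J b (associator a d g))) +
      J c (J g (J b (associator a d e))) +
      J d (J e (J b (associator a c g))) +
      J d (J g (J b (associator a c e))) +
      J e (J a (J c (associator b d g))) +
      J g (J a (J c (associator b d e))) +
      J e (J a (J d (associator b c g))) +
      J g (J a (J d (associator b c e))) +
      J e (J b (J c (associator a d g))) +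
      J g (J b (J c (associator a d e))) +
      J e (J b (J d (associator a c g))) +
      J g (J b (J d (associator a c e))) +
      J e (J c (J a (associator b d g))) +
      J g (J c (J a (associator b d e))) +
      J e (J d (J a (associator b c g))) +
      J g (J d (J a (associator b c e))) +
      J e (J c (J b (associator a d g))) +
      J g (J c (J b (associator a d e))) +
      J e (J d (J b (associator a c g))) +
      J g (J d (J b (associator a c e))) := by
  linear_combination (norm := abel1) ord123 h a b c d e g + ord132 h a b c d e g + ord213 h a b c d e g + ord231 h a b c d e g + ord312 h a b c d e g + ord321 h a b c d e g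

theorem six_tor (h : IsAlt A) (x0 x1 y0 y1 z0 z1 : A) :
    (6 : ℤ) • tor x0 x1 y0 y1 z0 z1 = 0 := by
  have e4 : associator x0 z0 y0 = - associator x0 y0 z0 := sk23 h x0 z0 y0
  have e5 : associator x0 z0 y1 = - associator x0 y1 z0 := sk23 h x0 z0 y1
  have e7 : associator x0 z1 y0 = - associator x0 y0 z1 := sk23 h x0 z1 y0
  have e8 : associator x0 z1 y1 = - associator x0 y1 z1 := sk23 h x0 z1 y1
  have e9 : associator x0 z1 z0 = - associator x0 z0 z1 := sk23 h x0 z1 z0
  have e10 : associator x1 x0 y0 = - associator x0 x1 y0 := sk12 h x1 x0 y0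
  have e11 : associator x1 x0 y1 = - associator x0 x1 y1 := sk12 h x1 x0 y1
  have e12 : associator x1 x0 z0 = - associator x0 x1 z0 := sk12 h x1 x0 z0
  have e13 : associator x1 x0 z1 = - associator x0 x1 z1 := sk12 h x1 x0 z1
  have e14 : associator x1 z0 y0 = - associator x1 y0 z0 := sk23 h x1 z0 y0
  have e15 : associator x1 z0 y1 = - associator x1 y1 z0 := sk23 h x1 z0 y1
  have e17 : associator x1 z1 y0 = - associator x1 y0 z1 := sk23 h x1 z1 y0
  have e18 : associator x1 z1 y1 = - associator x1 y1 z1 := sk23 h x1 z1 y1
  have e19 : associator x1 z1 z0 = - associator x1 z0 z1 := sk23 h x1 z1 z0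
  have e20 : associator y0 x0 y1 = - associator x0 y0 y1 := sk12 h y0 x0 y1
  have e21 : associator y0 x0 z0 = - associator x0 y0 z0 := sk12 h y0 x0 z0
  have e22 : associator y0 x0 z1 = - associator x0 y0 z1 := sk12 h y0 x0 z1
  have e23 : associator y0 x1 y1 = - associator x1 y0 y1 := sk12 h y0 x1 y1
  have e24 : associator y0 x1 z0 = - associator x1 y0 z0 := sk12 h y0 x1 z0
  have e25 : associator y0 x1 z1 = - associator x1 y0 z1 := sk12 h y0 x1 z1
  have e26 : associator y0 z0 y1 = - associator y0 y1 z0 := sk23 h y0 z0 y1
  have e28 : associator y0 z1 y1 = - associator y0 y1 z1 := sk23 h y0 z1 y1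
  have e29 : associator y0 z1 z0 = - associator y0 z0 z1 := sk23 h y0 z1 z0
  have e30 : associator y1 x0 y0 = associator x0 y0 y1 := cyc h y1 x0 y0
  have e31 : associator y1 x0 z0 = - associator x0 y1 z0 := sk12 h y1 x0 z0
  have e32 : associator y1 x0 z1 = - associator x0 y1 z1 := sk12 h y1 x0 z1
  have e33 : associator y1 x1 y0 = associator x1 y0 y1 := cyc h y1 x1 y0
  have e34 : associator y1 x1 z0 = - associator x1 y1 z0 := sk12 h y1 x1 z0
  have e35 : associator y1 x1 z1 = - associator x1 y1 z1 := sk12 h y1 x1 z1
  have e36 : associator y1 z0 y0 = associator y0 y1 z0 := (cyc h y0 y1 z0).symm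
  have e38 : associator y1 z1 y0 = associator y0 y1 z1 := (cyc h y0 y1 z1).symm
  have e39 : associator y1 z1 z0 = - associator y1 z0 z1 := sk23 h y1 z1 z0
  simp only [tor, smul_add, smul_sub, six_phi h]
  simp only [e4, e5, e7, e8, e9, e10, e11, e12, e13, e14, e15, e17, e18, e19, e20, e21, e22, e23, e24, e25, e26, e28, e29, e30, e31, e32, e33, e34, e35, e36, e38, e39, J_neg]
  abel

end Pool.Agent.LibAlt
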