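import Pool.Agent.LibAlt.Table

namespace Pool.Agent.LibAlt

theorem C_lt {i j : ℕ} (h : C i j ≠ 0) : i < 64 ∧ j < 64 := by
  unfold C at h
  split_ifs at h with h1 h2
  · exact ⟨h1, h2⟩
  · exact absurd rfl h
  · exact absurd rfl h

theorem C_and {i j : ℕ} (h : C i j ≠ 0) : i &&& j = 0 := by
  by_contra h1
  exact h (C_disj_aux i (C_lt h).1 j (C_lt h).2 h1)

theorem C_comm (i j : ℕ) : C i j = C j i := by
  by_cases h1 : C i j = 0
  · by_cases h2 : C j i = 0
    · rw [h1, h2]
    · exact C_comm_aux i (C_lt h2).2 j (C_lt h2).1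
  · exact C_comm_aux i (C_lt h1).1 j (C_lt h1).2

theorem or_lt_64 {i j : ℕ} (h : i ||| j < 64) : i < 64 ∧ j < 64 :=
  ⟨lt_of_le_of_lt Nat.left_le_or h, lt_of_le_of_lt Nat.right_le_or h⟩

theorem or_and_zero {i j l : ℕ} (h : (i ||| j) &&& l = 0) : i &&& l = 0 ∧ j &&& l = 0 := by
  rw [Nat.and_or_distrib_right] at h
  exact Nat.or_eq_zero_iff.1 h

theorem and_or_zero {i j l : ℕ} (h : i &&& (j ||| l) = 0) : i &&& j = 0 ∧ i &&& l = 0 := by
  rw [Nat.and_or_distrib_left] at h
  exact Nat.or_eq_zero_iff.1 h

/-- The set-theoretic condition under which a triple product can be nonzero. -/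
def Good (i j l : ℕ) : Prop :=
  i < 64 ∧ j < 64 ∧ l < 64 ∧ i &&& j = 0 ∧ i &&& l = 0 ∧ j &&& l = 0

theorem good_left {i j l : ℕ} (h : C i j * C (i ||| j) l ≠ 0) : Good i j l := by
  have h1 : C i j ≠ 0 := fun h0 => h (by rw [h0, zero_mul])
  have h2 : C (i ||| j) l ≠ 0 := fun h0 => h (by rw [h0, mul_zero])
  obtain ⟨a1, a2⟩ := C_lt h1
  obtain ⟨_, a3⟩ := C_lt h2
  obtain ⟨b1, b2⟩ := or_and_zero (C_and h2)
  exact ⟨a1, a2, a3, C_and h1, b1, b2⟩

theorem good_right {i j l : ℕ} (h : C j l * C i (j ||| l) ≠ 0) : Good i j l := by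
  have h1 : C j l ≠ 0 := fun h0 => h (by rw [h0, zero_mul])
  have h2 : C i (j ||| l) ≠ 0 := fun h0 => h (by rw [h0, mul_zero])
  obtain ⟨a1, a2⟩ := C_lt h1
  obtain ⟨a3, _⟩ := C_lt h2
  obtain ⟨b1, b2⟩ := and_or_zero (C_and h2)
  exact ⟨a3, a1, a2, b1, b2, C_and h1⟩

theorem Good.symm12 {i j l : ℕ} (h : Good i j l) : Good j i l := by
  obtain ⟨a, b, c, d, e, f⟩ := h
  exact ⟨b, a, c, by rw [Nat.and_comm]; exact d, f, e⟩

theorem C_alt (i j l : ℕ) :
    (C i j * C (i ||| j) l + C j i * C (j ||| i) l) % 3 =
      (C j l * C i (j ||| l) + C i l * C j (i ||| l)) % 3 := by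
  by_cases hg : Good i j l
  · obtain ⟨a, b, c, d, e, f⟩ := hg
    apply C_alt_aux i a j b d l c
    rw [Nat.and_or_distrib_right, e, f]; rfl
  · have z1 : C i j * C (i ||| j) l = 0 := by
      by_contra h; exact hg (good_left h)
    have z2 : C j i * C (j ||| i) l = 0 := by
      by_contra h; exact hg (good_left h).symm12
    have z3 : C j l * C i (j ||| l) = 0 := by
      by_contra h; exact hg (good_right h)
    have z4 : C i l * C j (i ||| l) = 0 := by
      by_contra h; exact hg (good_right h).symm12
    rw [z1, z2, z3, z4]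

variable (R : Type*) [CommRing R]

/-- The witness algebra: the free module on `ℕ` with a twisted product. -/
def W := ℕ →₀ R

noncomputable instance : AddCommGroup (W R) := inferInstanceAs (AddCommGroup (ℕ →₀ R))
noncomputable instance instModW (S : Type*) [CommRing S] [Module S R] : Module S (W R) :=
  inferInstanceAs (Module S (ℕ →₀ R))

instance instTowW (S : Type*) [CommRing S] [Algebra S R] : IsScalarTower S R (W R) :=
  inferInstanceAs (IsScalarTower S R (ℕ →₀ R))

variable {R}

/-- The basis vectors. -/
noncomputable def e (i : ℕ) : W R := (Finsupp.single i 1 : ℕ →₀ R)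

variable (R)

/-- The product as a bilinear map. -/
noncomputable def mulL : W R →ₗ[R] W R →ₗ[R] W R :=
  Finsupp.linearCombination R (fun i =>
    (Finsupp.linearCombination R (fun j => ((C i j : R)) • (e (i ||| j) : W R)) :
      (ℕ →₀ R) →ₗ[R] W R))

variable {R}

noncomputable instance : Mul (W R) := ⟨fun a b => mulL R a b⟩

theorem mul_eq (a b : W R) : a * b = mulL R a b := rfl

noncomputable instance : NonUnitalNonAssocRing (W R) :=
  { (inferInstance : AddCommGroup (W R)), (inferInstance : Mul (W R)) with
    left_distrib := fun a b c => by simp only [mul_eq, map_add]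
    right_distrib := fun a b c => by simp only [mul_eq, map_add, LinearMap.add_apply]
    zero_mul := fun a => by simp only [mul_eq, map_zero, LinearMap.zero_apply]
    mul_zero := fun a => by simp only [mul_eq, map_zero] }

instance : IsScalarTower R (W R) (W R) :=
  ⟨fun r a b => by simp only [smul_eq_mul, mul_eq, map_smul, LinearMap.smul_apply]⟩

instance : SMulCommClass R (W R) (W R) :=
  ⟨fun r a b => by simp only [smul_eq_mul, mul_eq, map_smul]⟩

theorem e_mul_e (i j : ℕ) : (e i : W R) * e j = (C i j : R) • e (i ||| j) := by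
  rw [mul_eq]
  unfold mulL
  conv_lhs => unfold e
  erw [Finsupp.linearCombination_single, one_smul, Finsupp.linearCombination_single, one_smul]
  rfl

/-- Induction on the basis: an additive condition that holds on all multiples of basis vectors. -/
theorem W_induction {p : W R → Prop} (h0 : p 0) (hadd : ∀ a b, p a → p b → p (a + b))
    (hs : ∀ (r : R) i, p (r • e i)) (a : W R) : p a := by
  refine Finsupp.induction_linear (motive := p) a h0 hadd ?_
  intro i r
  have : (Finsupp.single i r : ℕ →₀ R) = r • (Finsupp.single i 1 : ℕ →₀ R) := by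
    rw [Finsupp.smul_single, smul_eq_mul, mul_one]
  rw [this]
  exact hs r i

theorem W_comm (a b : W R) : a * b = b * a := by
  induction a using W_induction with
  | h0 => rw [zero_mul, mul_zero]
  | hadd x y hx hy => rw [add_mul, mul_add, hx, hy]
  | hs r i =>
    induction b using W_induction with
    | h0 => rw [zero_mul, mul_zero]
    | hadd x y hx hy => rw [add_mul, mul_add, hx, hy]
    | hs s j =>
      rw [smul_mul_smul_comm, smul_mul_smul_comm, e_mul_e, e_mul_e, C_comm i j, Nat.or_comm i j,
        mul_comm r s]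

theorem cast_mod (h3 : (3 : R) = 0) (m n : ℕ) (h : m % 3 = n % 3) : (m : R) = (n : R) := by
  have key : ∀ k : ℕ, ((k : ℕ) : R) = ((k % 3 : ℕ) : R) := by
    intro k
    conv_lhs => rw [← Nat.div_add_mod k 3]
    push_cast
    rw [h3, zero_mul, zero_add]
  rw [key m, key n, h]

theorem e_tri (h3 : (3 : R) = 0) (i j l : ℕ) :
    ((e i : W R) * e j) * e l + (e j * e i) * e l = e i * (e j * e l) + e j * (e i * e l) := by
  simp only [e_mul_e, smul_mul_assoc, mul_smul_comm, smul_smul]
  rw [← Nat.or_assoc i j l, ← Nat.or_assoc j i l, Nat.or_comm j i, ← add_smul, ← add_smul]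
  congr 1
  have := cast_mod h3 _ _ (C_alt i j l)
  push_cast at this
  rw [Nat.or_comm j i] at this
  exact this

theorem W_tri (h3 : (3 : R) = 0) (a b c : W R) :
    (a * b) * c + (b * a) * c = a * (b * c) + b * (a * c) := by
  induction a using W_induction with
  | h0 => simp only [zero_mul, mul_zero, add_zero]
  | hadd x y hx hy =>
    simp only [add_mul, mul_add] at hx hy ⊢
    linear_combination (norm := abel1) hx + hy
  | hs r i =>
    induction b using W_induction with
    | h0 => simp only [zero_mul, mul_zero, add_zero]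
    | hadd x y hx hy =>
      simp only [add_mul, mul_add] at hx hy ⊢
      linear_combination (norm := abel1) hx + hy
    | hs s j =>
      induction c using W_induction with
      | h0 => simp only [mul_zero, add_zero]
      | hadd x y hx hy =>
        simp only [mul_add] at hx hy ⊢
        linear_combination (norm := abel1) hx + hy
      | hs t l =>
        have h2 := congrArg (fun z => (r * s * t) • z) (e_tri h3 i j l)
        simp only [smul_add] at h2
        have e1 : ((r • (e i : W R)) * (s • e j)) * (t • e l) = (r * s * t) • ((e i * e j) * e l) := by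
          rw [smul_mul_smul_comm, smul_mul_smul_comm]
        have e2 : ((s • (e j : W R)) * (r • e i)) * (t • e l) = (r * s * t) • ((e j * e i) * e l) := by
          rw [smul_mul_smul_comm, smul_mul_smul_comm, mul_comm s r]
        have e3 : (r • (e i : W R)) * ((s • e j) * (t • e l)) = (r * s * t) • (e i * (e j * e l)) := by
          rw [smul_mul_smul_comm, smul_mul_smul_comm, mul_assoc]
        have e4 : (s • (e j : W R)) * ((r • e i) * (t • e l)) = (r * s * t) • (e j * (e i * e l)) := by
          rw [smul_mul_smul_comm, smul_mul_smul_comm]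
          congr 1
          ring
        rw [e1, e2, e3, e4]
        exact h2

theorem three_smul_W (h3 : (3 : R) = 0) (a : W R) : a + a + a = 0 := by
  have : (3 : R) • a = 0 := by rw [h3, zero_smul]
  rw [show (3 : R) = 1 + 1 + 1 by norm_num, add_smul, add_smul, one_smul] at this
  exact this

theorem W_isAlt (h3 : (3 : R) = 0) : IsAlt (W R) := by
  have left : ∀ a b : W R, (a * a) * b = a * (a * b) := by
    intro a b
    have h := W_tri h3 a a b
    have h1 := three_smul_W h3 ((a * a) * b - a * (a * b))
    linear_combination (norm := abel1) h1 - h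
  intro a b
  refine ⟨by rw [associator, left, sub_self], ?_⟩
  rw [associator, sub_eq_zero, W_comm b (a * a), left a b, W_comm b a, W_comm (a * b) a]

end Pool.Agent.LibAlt
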